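import Pool.Agent.Lib.MP_748a56_lc.Defs

/-! Long blocks of an interval partition and the fair coin measure. -/

open Set Filter MeasureTheory

namespace Pool.Agent.Lib.MP_748a56_lc

/-- The monotone majorant of `x`. -/
def maj (x : ℕ → ℕ) (n : ℕ) : ℕ := (Finset.range (n + 1)).sup x

theorem le_maj (x : ℕ → ℕ) {m n : ℕ} (h : m ≤ n) : x m ≤ maj x n :=
  Finset.le_sup (f := x) (Finset.mem_range.2 (by omega))

theorem maj_mono (x : ℕ → ℕ) : Monotone (maj x) := fun _ _ h =>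
  Finset.sup_mono (Finset.range_mono (by omega))

/-- End points of the blocks of `g`. -/
def nk (g : ℕ → ℕ) : ℕ → ℕ
  | 0 => 0
  | k + 1 => maj g (nk g k) + nk g k + 1

theorem nk_mono (g : ℕ → ℕ) : StrictMono (nk g) :=
  strictMono_nat_of_lt_succ fun k => by
    rw [nk]
    omega

theorem ex_lab (g : ℕ → ℕ) (m : ℕ) : ∃ k, m < nk g (k + 1) :=
  ⟨m, (nk_mono g).le_apply⟩

/-- The label of the block of `g` that contains `m`. -/
def lab (g : ℕ → ℕ) (m : ℕ) : ℕ := Nat.find (ex_lab g m)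

theorem lt_lab (g : ℕ → ℕ) (m : ℕ) : m < nk g (lab g m + 1) := Nat.find_spec (ex_lab g m)

theorem lab_le (g : ℕ → ℕ) (m : ℕ) : nk g (lab g m) ≤ m := by
  rcases h : lab g m with _ | k
  · exact Nat.zero_le m
  · exact not_lt.1 (Nat.find_min (ex_lab g m) (show k < lab g m by omega))

theorem lab_eq (g : ℕ → ℕ) {m k : ℕ} (h1 : nk g k ≤ m) (h2 : m < nk g (k + 1)) :
    lab g m = k := by
  have a := (nk_mono g).lt_iff_lt.1 (h1.trans_lt (lt_lab g m))
  have b := (nk_mono g).lt_iff_lt.1 ((lab_le g m).trans_lt h2)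
  omega

/-- The labels of the `x`-long blocks of `g`. -/
def Lg (g x : ℕ → ℕ) : Set ℕ := {k | x (nk g k) < nk g (k + 1)}

theorem leStar_of_finite {g x : ℕ → ℕ} (h : (Lg g x).Finite) :
    LeStar g fun n => maj x (maj x n) := by
  obtain ⟨N, hN⟩ := h.bddAbove
  have k0 : ∀ k, N < k → nk g (k + 1) ≤ x (nk g k) := fun k hk =>
    not_lt.1 fun a => absurd (hN a) (not_le.2 hk)
  filter_upwards [eventually_ge_atTop (nk g (N + 1))] with n hn
  have k1 := (nk_mono g).lt_iff_lt.1 (hn.trans_lt (lt_lab g n))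
  have k2 : g n ≤ maj g (nk g (lab g n + 1)) := le_maj g (lt_lab g n).le
  have k3 : nk g (lab g n + 1 + 1) = maj g (nk g (lab g n + 1)) + nk g (lab g n + 1) + 1 := rfl
  have k4 := k0 (lab g n + 1) (by omega)
  have k5 := (k0 (lab g n) (by omega)).trans (le_maj x (lab_le g n))
  have k6 := le_maj x k5
  omega

theorem Lg_diff (g : ℕ → ℕ) {x x' : ℕ → ℕ} (h : LeStar x x') : (Lg g x' \ Lg g x).Finite := by
  obtain ⟨N, hN⟩ := eventually_atTop.1 h
  refine (finite_Iio N).subset fun k hk => mem_Iio.2 (not_le.1 fun a => hk.2 ?_)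
  exact (hN _ (a.trans (nk_mono g).le_apply)).trans_lt hk.1

theorem Splits.mono {Y S S' : Set ℕ} (h : Splits Y S') (hs : (S' \ S).Finite) : Splits Y S :=
  ⟨(h.1.sdiff hs).mono fun _ a => ⟨by_contra fun b => a.2 ⟨a.1.1, b⟩, a.1.2⟩,
    (h.2.sdiff hs).mono fun _ a => ⟨by_contra fun b => a.2 ⟨a.1.1, b⟩, a.1.2⟩⟩

theorem exists_next {A : Set ℕ} (hA : A.Infinite) :
    ∃ x : ℕ → ℕ, ∀ g Y, Splits Y (Lg g x) → Splits (lab g ⁻¹' Y) A := by
  choose x h1 h2 using fun n => hA.exists_gt n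
  refine ⟨x, fun g Y h => ⟨?_, ?_⟩⟩
  · refine Infinite.of_image (lab g) (h.1.mono fun k hk => ⟨x (nk g k), ⟨h1 _, ?_⟩, ?_⟩)
    · rw [mem_preimage, lab_eq g (h2 _).le hk.1]
      exact hk.2
    · exact lab_eq g (h2 _).le hk.1
  · refine Infinite.of_image (lab g) (h.2.mono fun k hk => ⟨x (nk g k), ⟨h1 _, ?_⟩, ?_⟩)
    · rw [mem_preimage, lab_eq g (h2 _).le hk.1]
      exact hk.2
    · exact lab_eq g (h2 _).le hk.1

/-- The fair coin measure. -/
noncomputable def coin : Measure (ℕ → Bool) :=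
  Measure.infinitePi fun _ => (PMF.uniformOfFintype Bool).toMeasure

theorem coin_prob : IsProbabilityMeasure coin := by
  unfold coin
  infer_instance

theorem coin_const {S : Set ℕ} (hS : S.Infinite) (c : Bool) :
    coin {y | ∀ n ∈ S, y n = c} = 0 := by
  refine le_antisymm (ge_of_tendsto' (ENNReal.tendsto_pow_atTop_nhds_zero_of_lt_one
    (r := 2⁻¹) (by simp)) fun k => ?_) zero_le
  obtain ⟨s, hs, rfl⟩ := hS.exists_subset_card_eq k
  have e : {y : ℕ → Bool | ∀ n ∈ S, y n = c} ⊆ Set.pi s fun _ => {c} :=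
    fun y hy n hn => hy n (hs hn)
  refine (measure_mono e).trans ?_
  rw [coin, Measure.infinitePi_pi _ fun _ _ => measurableSet_singleton c]
  simp

theorem coin_null {S : Set ℕ} (hS : S.Infinite) :
    coin {y | ¬Splits {n | y n = true} S} = 0 := by
  refine measure_mono_null (t := ⋃ c : Bool, ⋃ m : ℕ, {y | ∀ n ∈ S \ Iic m, y n = c}) ?_
    (measure_iUnion_null fun c => measure_iUnion_null fun m =>
      coin_const (hS.sdiff (finite_Iic m)) c)
  intro y hy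
  simp only [mem_iUnion]
  rcases not_and_or.1 hy with h | h
  · obtain ⟨m, hm⟩ := (not_infinite.1 h).bddAbove
    exact ⟨false, m, fun n hn => Bool.eq_false_iff.2 fun a => hn.2 (hm ⟨hn.1, a⟩)⟩
  · obtain ⟨m, hm⟩ := (not_infinite.1 h).bddAbove
    exact ⟨true, m, fun n hn => by_contra fun a => hn.2 (hm ⟨hn.1, a⟩)⟩

/-- A monotone cover by families of sets that leave a fixed infinite set unsplit refutes `GP`. -/
theorem not_gp (B : (ℕ → ℕ) → Set (Set ℕ)) (h1 : ∀ x x', x ≤ x' → B x ⊆ B x')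
    (h2 : ∀ x, ∃ S : Set ℕ, S.Infinite ∧ ∀ Y ∈ B x, ¬Splits Y S) (h3 : ∀ Y, ∃ x, Y ∈ B x) :
    ¬GPall := by
  intro h
  have := coin_prob
  have : PolishSpace (ℕ → Bool) := {}
  have k := h (ℕ → Bool) coin {p | {n | p.2 n = true} ∈ B p.1}
    (fun x => by
      obtain ⟨S, hS, k⟩ := h2 x
      exact measure_mono_null (fun y hy => k _ hy) (coin_null hS))
    fun x x' a y hy => h1 x x' a hy
  refine one_ne_zero ((measure_univ (μ := coin)).symm.trans (measure_mono_null (fun y _ => ?_) k))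
  exact mem_iUnion.2 (h3 {n | y n = true})

theorem LeStar.trans {f g h : ℕ → ℕ} (a : LeStar f g) (b : LeStar g h) : LeStar f h :=
  (Eventually.and a b).mono fun _ k => k.1.trans k.2

theorem exists_unb :
    ∃ F : Set (ℕ → ℕ), Cardinal.mk F = bNum ∧ ¬∃ g, ∀ f ∈ F, LeStar f g := by
  refine csInf_mem (s := {c | ∃ F : Set (ℕ → ℕ), Cardinal.mk F = c ∧
    ¬∃ g, ∀ f ∈ F, LeStar f g}) ⟨_, univ, rfl, fun ⟨g, hg⟩ => ?_⟩
  obtain ⟨n, hn⟩ := (hg (fun n => g n + 1) (mem_univ _)).exists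
  exact Nat.not_succ_le_self _ hn

theorem bdd_of_lt {F : Set (ℕ → ℕ)} (h : Cardinal.mk F < bNum) : ∃ g, ∀ f ∈ F, LeStar f g :=
  by_contra fun a => not_le.2 h (csInf_le' ⟨F, rfl, a⟩)

theorem sNum_le {S : Set (Set ℕ)} (h : ∀ A : Set ℕ, A.Infinite → ∃ Y ∈ S, Splits Y A) :
    sNum ≤ Cardinal.mk S :=
  csInf_le' ⟨S, rfl, h⟩

theorem dNum_le {F : Set (ℕ → ℕ)} (h : ∀ g, ∃ f ∈ F, LeStar g f) : dNum ≤ Cardinal.mk F :=
  csInf_le' ⟨F, rfl, h⟩

theorem aleph0_le_b : Cardinal.aleph0 ≤ bNum := by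
  obtain ⟨F, h1, h2⟩ := exists_unb
  refine not_lt.1 fun a => h2 ?_
  obtain ⟨g, hg⟩ := (Cardinal.lt_aleph0_iff_set_finite.1 (h1 ▸ a)).bddAbove
  exact ⟨g, fun f hf => Eventually.of_forall (hg hf)⟩

end Pool.Agent.Lib.MP_748a56_lc
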