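import Mathlib

/-! Cardinal characteristics of the continuum and Goldstern's principle for all sets. -/

open Set Filter MeasureTheory

namespace Pool.Agent.Lib.MP_748a56_lc

/-- `f n ≤ g n` for all but finitely many `n`. -/
def LeStar (f g : ℕ → ℕ) : Prop := ∀ᶠ n in atTop, f n ≤ g n

/-- The bounding number. -/
noncomputable def bNum : Cardinal :=
  sInf {c | ∃ F : Set (ℕ → ℕ), Cardinal.mk F = c ∧ ¬∃ g, ∀ f ∈ F, LeStar f g}

/-- The dominating number. -/
noncomputable def dNum : Cardinal :=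
  sInf {c | ∃ F : Set (ℕ → ℕ), Cardinal.mk F = c ∧ ∀ g, ∃ f ∈ F, LeStar g f}

/-- `Y` splits `A`. -/
def Splits (Y A : Set ℕ) : Prop := (A ∩ Y).Infinite ∧ (A \ Y).Infinite

/-- The splitting number. -/
noncomputable def sNum : Cardinal :=
  sInf {c | ∃ S : Set (Set ℕ), Cardinal.mk S = c ∧
    ∀ A : Set ℕ, A.Infinite → ∃ Y ∈ S, Splits Y A}

/-- The reaping number. -/
noncomputable def rNum : Cardinal :=
  sInf {c | ∃ R : Set (Set ℕ), Cardinal.mk R = c ∧ (∀ A ∈ R, A.Infinite) ∧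
    ∀ Y : Set ℕ, ∃ A ∈ R, ¬Splits Y A}

/-- Goldstern's principle for the pointclass of all sets. -/
def GPall : Prop :=
  ∀ (Y : Type) [TopologicalSpace Y] [PolishSpace Y] [MeasurableSpace Y] [BorelSpace Y]
    (μ : Measure Y) [IsProbabilityMeasure μ] (A : Set ((ℕ → ℕ) × Y)),
    (∀ x, μ {y | (x, y) ∈ A} = 0) →
    (∀ x x', x ≤ x' → {y | (x, y) ∈ A} ⊆ {y | (x', y) ∈ A}) →
    μ (⋃ x, {y | (x, y) ∈ A}) = 0

end Pool.Agent.Lib.MP_748a56_lc
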